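import Pool.Agent.Helper87.VM.Lib2

/-!
The family of curves is irreducible (`MP_39dd1a_ag`).
-/

set_option autoImplicit false

namespace Pool.Agent.Helper87.VM

open MvPolynomial Pool.Agent.Helper48.VMRT

theorem hirr_univ (κ : Type) : (vanishingIdeal ℂ (Set.univ : Set (κ → ℂ))).IsPrime := by
  have h : vanishingIdeal ℂ (Set.univ : Set (κ → ℂ)) = ⊥ := by
    ext p
    rw [mem_vI, Ideal.mem_bot]
    constructor
    · intro h
      apply MvPolynomial.funext
      intro x
      rw [h x (Set.mem_univ x), map_zero]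
    · rintro rfl x _
      rw [map_zero]
  rw [h]
  exact Ideal.isPrime_bot

theorem hirr_open {κ : Type} {S : Set (κ → ℂ)} (hS : (vanishingIdeal ℂ S).IsPrime)
    (A : Set (MvPolynomial κ ℂ)) {x₀ : κ → ℂ} (hx₀ : x₀ ∈ S) (hA : ∃ p ∈ A, eval x₀ p ≠ 0) :
    (vanishingIdeal ℂ {x | x ∈ S ∧ ∃ p ∈ A, eval x p ≠ 0}).IsPrime := by
  have h : vanishingIdeal ℂ {x | x ∈ S ∧ ∃ p ∈ A, eval x p ≠ 0} = vanishingIdeal ℂ S := by
    apply le_antisymm
    · intro q hq
      obtain ⟨p, hp, hp0⟩ := hA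
      have h1 : p * q ∈ vanishingIdeal ℂ S := by
        rw [mem_vI]
        intro x hx
        rw [map_mul]
        by_cases h0 : eval x p = 0
        · rw [h0, zero_mul]
        · rw [mem_vI.1 hq x ⟨hx, p, hp, h0⟩, mul_zero]
      exact (hS.mem_or_mem h1).resolve_left fun h2 => hp0 (mem_vI.1 h2 x₀ hx₀)
    · exact vanishingIdeal_anti_mono fun x hx => hx.1
  rw [h]
  exact hS

/-- The parameter space. -/
abbrev HirrK (D : VD) : Type := D.κB ⊕ (Fin D.w ⊕ (Fin 4 ⊕ Fin D.w))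

/-- The parameters belonging to the component `i`. -/
def hirrP (D : VD) (i : D.ι) : Set (HirrK D → ℂ) :=
  {x | (fun j => x (Sum.inl j)) ∈ D.B ∧ (fun j => x (Sum.inr (Sum.inr (Sum.inr j)))) ∈ D.Zi i}

/-- The open subset of the nondegenerate parameters. -/
def hirrO (D : VD) (i : D.ι) : Set (HirrK D → ℂ) :=
  {x | x ∈ hirrP D i ∧ (fun j => x (Sum.inl j)) ≠ 0 ∧
    (fun j => x (Sum.inr (Sum.inr (Sum.inr j)))) ≠ 0 ∧
    x (Sum.inr (Sum.inr (Sum.inl 0))) * x (Sum.inr (Sum.inr (Sum.inl 3))) -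
      x (Sum.inr (Sum.inr (Sum.inl 1))) * x (Sum.inr (Sum.inr (Sum.inl 2))) ≠ 0}

theorem hirr_primeP (h1 : ST_PROD) (D : VD) (hD : D.Good) (i : D.ι) :
    (vanishingIdeal ℂ (hirrP D i)).IsPrime := by
  have e4 := hD.Zirr i
  have e3 := h1 (Fin 4) (Fin D.w) Set.univ (D.Zi i) (hirr_univ _) e4
  have e2 := h1 (Fin D.w) (Fin 4 ⊕ Fin D.w) Set.univ _ (hirr_univ _) e3
  have e1 := h1 D.κB (Fin D.w ⊕ (Fin 4 ⊕ Fin D.w)) D.B _ hD.Bpm.irred e2
  have e0 : hirrP D i = {z : D.κB ⊕ (Fin D.w ⊕ (Fin 4 ⊕ Fin D.w)) → ℂ |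
      (fun i => z (Sum.inl i)) ∈ D.B ∧ (fun j => z (Sum.inr j)) ∈
        {z : Fin D.w ⊕ (Fin 4 ⊕ Fin D.w) → ℂ | (fun i => z (Sum.inl i)) ∈ Set.univ ∧
          (fun j => z (Sum.inr j)) ∈ {z : Fin 4 ⊕ Fin D.w → ℂ |
            (fun i => z (Sum.inl i)) ∈ Set.univ ∧ (fun j => z (Sum.inr j)) ∈ D.Zi i}}} := by
    ext x
    constructor
    · intro h
      exact ⟨h.1, Set.mem_univ _, Set.mem_univ _, h.2⟩
    · intro h
      exact ⟨h.1, h.2.2.2⟩
  rw [e0]
  exact e1

theorem hirr_primeO (h1 : ST_PROD) (D : VD) (hD : D.Good) (i : D.ι) :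
    (vanishingIdeal ℂ (hirrO D i)).IsPrime := by
  obtain ⟨b, hb, hb0⟩ := hD.Bpm.exists_ne
  obtain ⟨z, hz, hz0⟩ := hD.Zne i
  obtain ⟨jb, hjb⟩ := Function.ne_iff.1 hb0
  obtain ⟨jz, hjz⟩ := Function.ne_iff.1 hz0
  let x₀ : HirrK D → ℂ := Sum.elim b (Sum.elim 0 (Sum.elim ![1, 0, 0, 1] z))
  let A1 : Set (MvPolynomial (HirrK D) ℂ) := Set.range fun j => X (Sum.inl j)
  let A2 : Set (MvPolynomial (HirrK D) ℂ) :=
    Set.range fun j => X (Sum.inr (Sum.inr (Sum.inr j)))
  let A3 : Set (MvPolynomial (HirrK D) ℂ) :=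
    {X (Sum.inr (Sum.inr (Sum.inl 0))) * X (Sum.inr (Sum.inr (Sum.inl 3))) -
      X (Sum.inr (Sum.inr (Sum.inl 1))) * X (Sum.inr (Sum.inr (Sum.inl 2)))}
  have p0 := hirr_primeP h1 D hD i
  have m0 : x₀ ∈ hirrP D i := ⟨hb, hz⟩
  have n1 : ∃ p ∈ A1, eval x₀ p ≠ 0 := ⟨_, ⟨jb, rfl⟩, by
    simp only [eval_X, x₀, Sum.elim_inl]
    exact hjb⟩
  have n2 : ∃ p ∈ A2, eval x₀ p ≠ 0 := ⟨_, ⟨jz, rfl⟩, by
    simp only [eval_X, x₀, Sum.elim_inr]
    exact hjz⟩
  have n3 : ∃ p ∈ A3, eval x₀ p ≠ 0 := ⟨_, rfl, by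
    simp [x₀]⟩
  have p1 := hirr_open p0 A1 m0 n1
  have m1 : x₀ ∈ {x | x ∈ hirrP D i ∧ ∃ p ∈ A1, eval x p ≠ 0} := ⟨m0, n1⟩
  have p2 := hirr_open p1 A2 m1 n2
  have m2 : x₀ ∈ {x | x ∈ {x | x ∈ hirrP D i ∧ ∃ p ∈ A1, eval x p ≠ 0} ∧
      ∃ p ∈ A2, eval x p ≠ 0} := ⟨m1, n2⟩
  have p3 := hirr_open p2 A3 m2 n3
  have e : hirrO D i = {x | x ∈ {x | x ∈ {x | x ∈ hirrP D i ∧ ∃ p ∈ A1, eval x p ≠ 0} ∧
      ∃ p ∈ A2, eval x p ≠ 0} ∧ ∃ p ∈ A3, eval x p ≠ 0} := by
    ext x
    constructor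
    · rintro ⟨h, hb, hz, hd⟩
      obtain ⟨j, hj⟩ := Function.ne_iff.1 hb
      obtain ⟨l, hl⟩ := Function.ne_iff.1 hz
      refine ⟨⟨⟨h, _, ⟨j, rfl⟩, ?_⟩, _, ⟨l, rfl⟩, ?_⟩, _, rfl, ?_⟩
      · rw [eval_X]; exact hj
      · rw [eval_X]; exact hl
      · simp only [map_sub, map_mul, eval_X]; exact hd
    · rintro ⟨⟨⟨h, _, ⟨j, rfl⟩, hj⟩, _, ⟨l, rfl⟩, hl⟩, _, rfl, hd⟩
      refine ⟨h, ?_, ?_, ?_⟩
      · intro h0
        apply hj
        simp only [eval_X]
        exact congrFun h0 j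
      · intro h0
        apply hl
        simp only [eval_X]
        exact congrFun h0 l
      · simp only [map_sub, map_mul, eval_X] at hd; exact hd
  rw [e]
  exact p3

/-- The independence of `(1, u)`, `(0, z)`. -/
theorem hirr_ind {w : ℕ} (u z : Fin w → ℂ) (σ : Fin 4 → ℂ) (hz : z ≠ 0)
    (hd : σ 0 * σ 3 - σ 1 * σ 2 ≠ 0) :
    LinearIndependent ℂ ![ov (σ 0) (σ 0 • u + σ 2 • z), ov (σ 1) (σ 1 • u + σ 3 • z)] := by
  rw [LinearIndependent.pair_iff]
  intro s t hst
  have e0 : s * σ 0 + t * σ 1 = 0 := by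
    have := congrFun hst none
    simpa using this
  obtain ⟨j, hj⟩ := Function.ne_iff.1 hz
  have ej : s * (σ 0 * u j + σ 2 * z j) + t * (σ 1 * u j + σ 3 * z j) = 0 := by
    have := congrFun hst (some j)
    simpa using this
  have e1 : (s * σ 2 + t * σ 3) * z j = 0 := by linear_combination ej - u j * e0
  have e2 : s * σ 2 + t * σ 3 = 0 := (mul_eq_zero.1 e1).resolve_right hj
  constructor
  · have : s * (σ 0 * σ 3 - σ 1 * σ 2) = 0 := by linear_combination σ 3 * e0 - σ 1 * e2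
    exact (mul_eq_zero.1 this).resolve_right hd
  · have : t * (σ 0 * σ 3 - σ 1 * σ 2) = 0 := by linear_combination σ 0 * e2 - σ 2 * e0
    exact (mul_eq_zero.1 this).resolve_right hd

/-- The curve is determined by its parametrization. -/
theorem hirr_unique {N d k : ℕ} (c c' : Coef N d) (p q : ℂ) (hpq : p ≠ 0 ∨ q ≠ 0)
    (h : ∀ s t : ℂ, (s * p + t * q) ^ k • pt c s t = (s * p + t * q) ^ k • pt c' s t) :
    c = c' := by
  have hlin : Polynomial.C p + Polynomial.X * Polynomial.C q ≠ 0 := by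
    intro h0
    have h1 := congrArg (fun f : Polynomial ℂ => f.coeff 0) h0
    have h2 := congrArg (fun f : Polynomial ℂ => f.coeff 1) h0
    simp only [Polynomial.coeff_add, Polynomial.coeff_C_zero, Polynomial.coeff_mul_C,
      Polynomial.coeff_X_zero, Polynomial.coeff_zero, zero_mul, add_zero] at h1
    simp only [Polynomial.coeff_add, Polynomial.coeff_C_succ, Polynomial.coeff_mul_C,
      Polynomial.coeff_X_one, Polynomial.coeff_zero, one_mul, zero_add] at h2
    rcases hpq with h3 | h3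
    · exact h3 h1
    · exact h3 h2
  have key : ∀ i, cpol c i = cpol c' i := by
    intro i
    have h1 : (Polynomial.C p + Polynomial.X * Polynomial.C q) ^ k *
        (cpol c i - cpol c' i) = 0 := by
      apply Polynomial.funext
      intro t
      have h2 := congrFun (h 1 t) i
      rw [Pi.smul_apply, Pi.smul_apply, smul_eq_mul, smul_eq_mul, ← hevv_cpol, ← hevv_cpol] at h2
      have h3 : hevv d (cpol c) 1 t i = (cpol c i).eval t := hev_one (cpol_natDegree c i) t
      have h4 : hevv d (cpol c') 1 t i = (cpol c' i).eval t := hev_one (cpol_natDegree c' i) t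
      rw [h3, h4] at h2
      simp only [Polynomial.eval_mul, Polynomial.eval_pow, Polynomial.eval_add,
        Polynomial.eval_C, Polynomial.eval_X, Polynomial.eval_sub, Polynomial.eval_zero]
      rw [one_mul] at h2
      linear_combination h2
    have h5 := (mul_eq_zero.1 h1).resolve_left (pow_ne_zero _ hlin)
    exact sub_eq_zero.1 h5
  funext x
  obtain ⟨i, j⟩ := x
  have h6 := congrArg (fun f : Polynomial ℂ => f.coeff (j : ℕ)) (key i)
  simp only [cpol_coeff] at h6
  rw [dif_pos j.2, dif_pos j.2] at h6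
  exact h6

/-- The members of the family given by parameters in the component `i`. -/
theorem hirr_par (D : VD) (hD : D.Good)
    (Ψ : Fin (D.N + 1) × Fin (D.dg + 1) → MvPolynomial (HirrK D) ℂ)
    (hΨ : ∀ (b : D.κB → ℂ) (u : Fin D.w → ℂ) (σ : Fin 4 → ℂ), ∀ z ∈ D.Z, ∀ s t : ℂ,
      (s * σ 0 + t * σ 1) ^ D.k •
        pt (ev Ψ (Sum.elim b (Sum.elim u (Sum.elim σ z))) : Coef D.N D.dg) s t =
      ev2 D.E b (D.gr (s • ov (σ 0) (σ 0 • u + σ 2 • z) + t • ov (σ 1) (σ 1 • u + σ 3 • z))))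
    (i : D.ι) (c : Coef D.N D.dg) :
    c ∈ ev Ψ '' hirrO D i ↔ ∃ b p q, D.HP b p q ∧
      (fun j => q none * p (some j) - p none * q (some j)) ∈ D.Zi i ∧
      ∀ s t : ℂ, (s * p none + t * q none) ^ D.k • pt c s t =
        ev2 D.E b (D.gr (s • p + t • q)) := by
  constructor
  · rintro ⟨x, ⟨⟨hb, hz⟩, hb0, hz0, hd⟩, rfl⟩
    obtain ⟨b, hbe⟩ : ∃ b : D.κB → ℂ, b = fun j => x (Sum.inl j) := ⟨_, rfl⟩
    obtain ⟨u, hue⟩ : ∃ u : Fin D.w → ℂ, u = fun j => x (Sum.inr (Sum.inl j)) := ⟨_, rfl⟩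
    obtain ⟨σ, hσe⟩ : ∃ σ : Fin 4 → ℂ, σ = fun j => x (Sum.inr (Sum.inr (Sum.inl j))) :=
      ⟨_, rfl⟩
    obtain ⟨z, hze⟩ : ∃ z : Fin D.w → ℂ, z = fun j => x (Sum.inr (Sum.inr (Sum.inr j))) :=
      ⟨_, rfl⟩
    have hx : x = Sum.elim b (Sum.elim u (Sum.elim σ z)) := by
      rw [hbe, hue, hσe, hze]
      funext j
      rcases j with j | j | j | j <;> rfl
    rw [← hbe] at hb hb0
    rw [← hze] at hz hz0
    have hd' : σ 0 * σ 3 - σ 1 * σ 2 ≠ 0 := by rw [hσe]; exact hd
    have hzZ : z ∈ D.Z := Set.mem_iUnion.2 ⟨i, hz⟩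
    have hm : (fun j => (ov (σ 1) (σ 1 • u + σ 3 • z)) none *
        (ov (σ 0) (σ 0 • u + σ 2 • z)) (some j) -
        (ov (σ 0) (σ 0 • u + σ 2 • z)) none * (ov (σ 1) (σ 1 • u + σ 3 • z)) (some j)) =
        (σ 1 * σ 2 - σ 0 * σ 3) • z := by
      funext j
      simp only [ov_none, ov_some, Pi.add_apply, Pi.smul_apply, smul_eq_mul]
      ring
    refine ⟨b, ov (σ 0) (σ 0 • u + σ 2 • z), ov (σ 1) (σ 1 • u + σ 3 • z), ?_, ?_, ?_⟩
    · refine ⟨hb, hb0, hirr_ind u z σ hz0 hd', ?_, ?_⟩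
      · by_contra hn
        rw [not_or, not_not, not_not] at hn
        have a1 : σ 0 = 0 := hn.1
        have a2 : σ 1 = 0 := hn.2
        apply hd'
        rw [a1, a2]; ring
      · rw [hm]
        exact Set.mem_iUnion.2 ⟨i, hD.Zcone i _ z hz⟩
    · rw [hm]
      exact hD.Zcone i _ z hz
    · intro s t
      rw [hx]
      exact hΨ b u σ z hzZ s t
  · rintro ⟨b, p, q, hp, hz, hc⟩
    obtain ⟨z, hze⟩ : ∃ z : Fin D.w → ℂ,
      z = fun j => q none * p (some j) - p none * q (some j) := ⟨_, rfl⟩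
    rw [← hze] at hz
    have hzj : ∀ j, z j = q none * p (some j) - p none * q (some j) := fun j => congrFun hze j
    have hz0 : z ≠ 0 := by
      intro h0
      have h1 := (LinearIndependent.pair_iff.1 hp.ind) (q none) (-p none) (by
        funext o
        cases o with
        | none =>
          simp only [Pi.add_apply, Pi.smul_apply, smul_eq_mul, Pi.zero_apply]; ring
        | some j =>
          have h2 := hzj j
          rw [h0, Pi.zero_apply] at h2
          simp only [Pi.add_apply, Pi.smul_apply, smul_eq_mul, Pi.zero_apply]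
          linear_combination -h2)
      rcases hp.ne with h3 | h3
      · exact h3 (neg_eq_zero.1 h1.2)
      · exact h3 h1.1
    have hzZ : z ∈ D.Z := Set.mem_iUnion.2 ⟨i, hz⟩
    -- the parameters
    have hpar : ∃ (u : Fin D.w → ℂ) (σ : Fin 4 → ℂ), σ 0 * σ 3 - σ 1 * σ 2 ≠ 0 ∧
        p = ov (σ 0) (σ 0 • u + σ 2 • z) ∧ q = ov (σ 1) (σ 1 • u + σ 3 • z) := by
      by_cases h0 : p none = 0
      · have hq0 : q none ≠ 0 := hp.ne.resolve_left fun h => h h0
        refine ⟨fun j => q (some j) / q none, ![0, q none, 1 / q none, 0], ?_, ?_, ?_⟩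
        · have : (![0, q none, 1 / q none, 0] : Fin 4 → ℂ) 0 *
              (![0, q none, 1 / q none, 0] : Fin 4 → ℂ) 3 -
              (![0, q none, 1 / q none, 0] : Fin 4 → ℂ) 1 *
              (![0, q none, 1 / q none, 0] : Fin 4 → ℂ) 2 = 0 * 0 - q none * (1 / q none) := rfl
          rw [this, mul_one_div_cancel hq0]
          norm_num
        · funext o
          cases o with
          | none => exact h0
          | some j =>
            change p (some j) = 0 * (q (some j) / q none) + 1 / q none * z j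
            rw [hzj j, h0]
            field_simp
            ring
        · funext o
          cases o with
          | none => rfl
          | some j =>
            change q (some j) = q none * (q (some j) / q none) + 0 * z j
            field_simp
            ring
      · refine ⟨fun j => p (some j) / p none, ![p none, q none, 0, -(1 / p none)], ?_, ?_, ?_⟩
        · have : (![p none, q none, 0, -(1 / p none)] : Fin 4 → ℂ) 0 *
              (![p none, q none, 0, -(1 / p none)] : Fin 4 → ℂ) 3 -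
              (![p none, q none, 0, -(1 / p none)] : Fin 4 → ℂ) 1 *
              (![p none, q none, 0, -(1 / p none)] : Fin 4 → ℂ) 2 =
              p none * -(1 / p none) - q none * 0 := rfl
          rw [this, mul_neg, mul_one_div_cancel h0]
          norm_num
        · funext o
          cases o with
          | none => rfl
          | some j =>
            change p (some j) = p none * (p (some j) / p none) + 0 * z j
            field_simp
            ring
        · funext o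
          cases o with
          | none => rfl
          | some j =>
            change q (some j) = q none * (p (some j) / p none) + -(1 / p none) * z j
            rw [hzj j]
            field_simp
            ring
    obtain ⟨u, σ, hd, hpe, hqe⟩ := hpar
    refine ⟨Sum.elim b (Sum.elim u (Sum.elim σ z)), ⟨⟨hp.b_mem, hz⟩, hp.b_ne, hz0, hd⟩, ?_⟩
    symm
    apply hirr_unique c _ (p none) (q none) hp.ne (k := D.k)
    intro s t
    rw [hc s t]
    have h4 := hΨ b u σ z hzZ s t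
    rw [← hpe, ← hqe] at h4
    rw [← h4]
    have h5 : p none = σ 0 := by rw [hpe]; rfl
    have h6 : q none = σ 1 := by rw [hqe]; rfl
    rw [h5, h6]

theorem st_HIRR (h1 : ST_PROD) (h2 : ST_PAR) : ST_HIRR := by
  intro D hD
  obtain ⟨Ψ, hΨ⟩ := h2 D hD
  obtain ⟨i⟩ := hD.ine
  have hpar := hirr_par D hD Ψ hΨ
  have key : D.H = ev Ψ '' hirrO D i := by
    apply Set.Subset.antisymm
    · rintro c ⟨b, p, q, hp, hc⟩
      obtain ⟨j, hj⟩ := Set.mem_iUnion.1 hp.mem
      obtain ⟨g, hg⟩ := hD.trans j i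
      obtain ⟨-, g2, g3⟩ := st_HTR D hD g
      rw [hpar i c]
      refine ⟨prep D.π g b, oext D.ρ g p, oext D.ρ g q, g2 b p q hp, ?_, ?_⟩
      · rw [← hg]
        refine ⟨_, hj, ?_⟩
        have h8 : (fun i => q none * p (some i) - p none * q (some i)) =
            q none • (fun i => p (some i)) - p none • (fun i => q (some i)) := rfl
        change D.ρ g (fun i => q none * p (some i) - p none * q (some i)) = _
        rw [h8, map_sub, map_smul, map_smul]
        rfl
      · intro s t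
        have h9 : s • oext D.ρ g p + t • oext D.ρ g q = oext D.ρ g (s • p + t • q) := by
          rw [map_add, map_smul, map_smul]
        rw [h9, g3, ← hc s t]
        rfl
    · intro c hc
      rw [hpar i c] at hc
      obtain ⟨b, p, q, hp, -, hc⟩ := hc
      exact ⟨b, p, q, hp, hc⟩
  rw [key]
  exact prime_image Ψ (hirr_primeO h1 D hD i)

end Pool.Agent.Helper87.VM
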